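import Mathlib
import Pool.Agent.H1.Eta

namespace Pool.Agent.Results.MP_53e992_co.No

open Set Cardinal Function Pool.Agent.H1.Eta

/-- Every vertex `y` has a neighbour `x` with `y` on every shortest path from `x` to `w`. -/
def TreeLike {V : Type} (G : SimpleGraph V) (w : V) : Prop :=
  ∀ y, ∃ x, G.Adj y x ∧ ∀ p : G.Walk x w, p.length = G.dist x w → y ∈ p.support

abbrev W := (Order.succ (𝔠 : Cardinal.{0})).ord.ToType

lemma hW (b : W) : #(Iio b) ≤ 𝔠 := Order.lt_succ_iff.1 (by simpa using mk_Iio_lt b (by simp))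

lemma bW (A : Set W) (h : #A ≤ 𝔠) : ∃ b, ∀ a ∈ A, a < b := by
  by_contra! e
  have : (⋃ a : A, Iio a.1 ∪ {a.1}) = Set.univ := eq_univ_of_forall fun b =>
    let ⟨a, c, d⟩ := e b
    mem_iUnion.2 ⟨⟨a, c⟩, d.lt_or_eq⟩
  have k := cu h fun a : A => c2 (hW a) (c1 a.1)
  rw [this, mk_univ, mk_ord_toType] at k
  exact (Order.lt_succ _).not_ge k

abbrev L := {f : Lex (W → Bool) // ∃ a, f a = true ∧ ∀ b > a, f b = false}

noncomputable def lev (x : L) : W := x.2.choose

lemma l1 (x : L) : x.1 (lev x) = true := x.2.choose_spec.1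

lemma l2 (x : L) {b} (h : lev x < b) : x.1 b = false := x.2.choose_spec.2 b h

lemma l3 (x : L) {b} (h : x.1 b = true) : b ≤ lev x := not_lt.1 fun e => by simp [l2 x e] at h

lemma sep (x y : L) (h : x < y) (e : lev x = lev y) : ∃ z, x < z ∧ z < y ∧ lev z < lev x := by
  obtain ⟨i, a, b⟩ : x.1 < y.1 := h
  obtain ⟨b, c⟩ := Bool.lt_iff.1 b
  have d : i < lev y := (l3 y c).lt_of_ne fun k => by simp [k, ← e, l1] at b
  let z : L := ⟨toLex fun j => if j ≤ i then y.1 j else false, i, by simp [c], fun j k => by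
    simp [k.not_ge]⟩
  refine ⟨z, ⟨i, fun j k => by simp [z, a j k, k.le], by simp [z, b, c]⟩, ?_,
    lt_of_le_of_lt (not_lt.1 fun k => ?_) (e ▸ d)⟩
  · refine Pi.toLex_strictMono (a := fun j => if j ≤ i then y.1 j else false) (b := y.1)
      (lt_of_le_of_ne (fun j => by simp only; split_ifs <;> simp) fun k => ?_)
    simpa [l1, d.not_ge] using congrFun k (lev y)
  · have := l1 z
    generalize lev z = t at this k
    simp [z, k.not_ge] at this

lemma sat : Sat L := fun A B a b h => by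
  obtain ⟨m, hm⟩ := bW (lev '' (A ∪ B)) (mk_image_le.trans (c2 a b))
  have hm : ∀ x ∈ A ∪ B, lev x < m := fun x e => hm _ ⟨x, e, rfl⟩
  set s := sSup (Subtype.val '' A)
  refine ⟨⟨toLex fun j => if j < m then s j else decide (j = m), m, by simp, fun j k => by
    simp [k.not_gt, k.ne']⟩, fun x e => ?_, fun x e => ?_⟩
  · have k : (∀ j < m, x.1 j = s j) → x.1 < toLex fun j => if j < m then s j else decide (j = m) :=
      fun k => ⟨m, fun j f => by simp [f, k j f], by simp [l2 x (hm x (.inl e))]⟩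
    obtain f | ⟨i, f, g⟩ := (le_sSup (s := Subtype.val '' A) ⟨x, e, rfl⟩).eq_or_lt
    · exact k fun j _ => congrFun f j
    by_cases n : i < m
    · exact ⟨i, fun j d => by simp [d.trans n, f j d, s], by simpa [n] using g⟩
    · exact k fun j d => f j (d.trans_le (not_lt.1 n))
  have : s < x.1 := by
    refine lt_of_le_of_lt (b := toLex fun j => if j < lev x then x.1 j else decide (lev x < j))
      (sSup_le ?_) ⟨lev x, fun j d => by simp [d], by simp [l1]⟩
    rintro _ ⟨y, d, rfl⟩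
    obtain ⟨i, f, g⟩ : y.1 < x.1 := h y d x e
    obtain n | rfl := (l3 x (Bool.lt_iff.1 g).2).lt_or_eq
    · exact le_of_lt ⟨i, fun j d => by simp [d.trans n, f j d], by simpa [n] using g⟩
    refine Pi.toLex_monotone (a := y.1) fun j => ?_
    obtain n | rfl | n := lt_trichotomy j (lev x)
    · simp [n, f j n]
    · simp [(Bool.lt_iff.1 g).1]
    · simp [n, n.not_gt]
  obtain ⟨i, f, g⟩ := this
  have n := (l3 x (Bool.lt_iff.1 g).2).trans_lt (hm x (.inr e))
  exact ⟨i, fun j d => by simp [d.trans n, f j d], by simpa [n] using g⟩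

lemma big {x y : L} (h : x < y) : Order.succ 𝔠 ≤ #(Ioo x y) := Order.succ_le_of_lt <|
  not_le.1 fun e => by
    obtain ⟨z, a, b⟩ := sat {x} (Ioo x y ∪ {y}) (c1 _) (c2 e (c1 _)) (by
      rintro _ rfl _ (e | rfl)
      exacts [e.1, h])
    exact lt_irrefl _ (b z (.inl ⟨a _ rfl, b _ (.inr rfl)⟩))

lemma out (x y : L) : ∃ a b, a < x ∧ a < y ∧ x < b ∧ y < b := by
  obtain ⟨a, -, c⟩ := sat ∅ ({x} ∪ {y}) (by simp) (c2 (c1 _) (c1 _)) (by simp)
  obtain ⟨b, d, -⟩ := sat ({x} ∪ {y}) ∅ (c2 (c1 _) (c1 _)) (by simp) (by simp)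
  exact ⟨a, b, c _ (.inl rfl), c _ (.inr rfl), d _ (.inl rfl), d _ (.inr rfl)⟩

abbrev V := L × Bool × ℕ

def R (u v : V) : Prop := v = (u.1, u.2.1, u.2.2 + 1) ∨
  u.2 = (false, 0) ∧ v.2 = (true, 0) ∧ u.1 ≤ v.1

def G : SimpleGraph V where
  Adj u v := R u v ∨ R v u
  symm := ⟨fun _ _ => .symm⟩
  loopless := ⟨by rintro ⟨x, b, n⟩; simp [R]; grind⟩

lemma con : G.Connected := by
  have a : ∀ x b n, G.Reachable (x, b, n) (x, false, 0) := fun x b n => by
    induction n with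
    | zero => cases b; exacts [.rfl, SimpleGraph.Adj.reachable (Or.inr (.inr ⟨rfl, rfl, le_rfl⟩))]
    | succ n ih => exact (SimpleGraph.Adj.reachable (G := G) (Or.inr (.inl rfl))).trans ih
  obtain ⟨o, -⟩ := sat ∅ ∅ (by simp) (by simp) (by simp)
  have : Nonempty V := ⟨(o, false, 0)⟩
  refine ⟨fun ⟨x, b, n⟩ ⟨y, c, m⟩ => (a _ _ _).trans (.trans ?_ (a _ _ _).symm)⟩
  exact (SimpleGraph.Adj.reachable (G := G) (v := (max x y, true, 0))
    (Or.inl (.inr ⟨rfl, rfl, le_max_left _ _⟩))).trans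
    (SimpleGraph.Adj.reachable (Or.inr (.inr ⟨rfl, rfl, le_max_right _ _⟩)))

lemma tl (o : L) : TreeLike G (o, false, 0) := fun ⟨x, b, n⟩ => by
  refine ⟨(x, b, n + 1), .inl (.inl rfl), fun p _ => ?_⟩
  have : ∀ {u v} (p : G.Walk u v), u.1 = x ∧ u.2.1 = b ∧ n < u.2.2 → v.2.2 = 0 →
      (x, b, n) ∈ p.support := by
    intro u v p
    induction p with
    | nil => omega
    | @cons u v _ e p ih =>
      intro a c
      by_cases d : v = (x, b, n)
      · simp [← d]
      refine List.mem_cons_of_mem _ (ih ?_ c)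
      obtain ⟨y, f, m⟩ := u
      obtain ⟨z, g, k⟩ := v
      simp only [G, R, Prod.mk.injEq] at e a d ⊢
      grind
  exact this p ⟨rfl, rfl, n.lt_succ_self⟩ rfl

lemma df (x : L) (b : Bool) (v : V) (h : v ≠ (x, b, 0)) : ∃ p q : L, p < q ∧ ∃ c : Bool,
    (∀ z ∈ Ioo p q, G.Adj (x, b, 0) (z, c, 0) ∧ (¬ G.Adj v (z, c, 0) ∨ z = v.1)) ∨
    ∀ z ∈ Ioo p q, G.Adj v (z, c, 0) ∧ (¬ G.Adj (x, b, 0) (z, c, 0) ∨ z = v.1) := by
  obtain ⟨y, d, n⟩ := v
  obtain ⟨p, q, a1, a2, a3, a4⟩ := out x y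
  by_cases e : d = b ∧ n = 0
  · obtain ⟨rfl, rfl⟩ := e
    obtain e | rfl | e := lt_trichotomy x y
    · refine ⟨x, y, e, !d, ?_⟩
      cases d
      · left; simp [G, R]; grind
      · right; simp [G, R]; grind
    · simp at h
    · refine ⟨y, x, e, !d, ?_⟩
      cases d
      · right; simp [G, R]; grind
      · left; simp [G, R]; grind
  cases b
  · exact ⟨x, q, a3, true, .inl (by simp [G, R]; grind)⟩
  · exact ⟨p, x, a1, false, .inl (by simp [G, R]; grind)⟩

lemma mv (α : G ≃g G) (h : α ≠ 1) : Order.succ 𝔠 ≤ #{v | α v ≠ v} := by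
  obtain ⟨x, b, e⟩ : ∃ x b, α (x, b, 0) ≠ (x, b, 0) := by
    by_contra! e
    refine h (RelIso.ext fun ⟨x, b, n⟩ => ?_)
    induction n using Nat.strong_induction_on with | _ n ih
    obtain _ | n := n
    · exact e _ _
    have a := α.map_adj_iff.2 (show G.Adj (x, b, n) (x, b, n + 1) from .inl (.inl rfl))
    rw [show α (x, b, n) = (x, b, n) from ih n n.lt_succ_self] at a
    have : ∀ y c m, m ≤ n ∧ y = x ∧ c = b ∨ m = 0 → α (x, b, n + 1) ≠ (y, c, m) := by
      rintro y c m (⟨d, rfl, rfl⟩ | rfl) f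
      · have := α.injective (f.trans (ih m (by omega)).symm)
        simp at this
        omega
      · simpa using α.injective (f.trans (e _ _).symm)
    change α (x, b, n + 1) = (x, b, n + 1)
    generalize α (x, b, n + 1) = v at a this
    obtain ⟨y, c, m⟩ := v
    have := fun e => this y c m e rfl
    simp only [G, R, Prod.mk.injEq] at a ⊢
    clear ih e h
    grind
  obtain ⟨p, q, pq, c, a⟩ := df x b _ e
  have : Order.succ 𝔠 ≤ #(Ioo p q \ {(α (x, b, 0)).1} : Set L) := by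
    by_contra! k
    have := (mk_le_mk_of_subset (subset_sdiff_union _ _)).trans (c2 (Order.lt_succ_iff.1 k) (c1 _))
    exact (Order.lt_succ _).not_ge ((big pq).trans this)
  refine this.trans (mk_le_of_injective (f := fun z => ⟨(z.1, c, 0), fun f => ?_⟩)
    fun z w f => Subtype.ext (congrArg (·.1.1) f))
  have := α.map_adj_iff (v := (x, b, 0)) (w := (z.1, c, 0))
  rw [f] at this
  obtain a | a := a
  · exact (a z z.2.1).2.elim (· (this.2 (a z z.2.1).1)) z.2.2
  · exact (a z z.2.1).2.elim (· (this.1 (a z z.2.1).1)) z.2.2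

lemma nd (S : Set V) : ∃ α : G ≃g G, α ≠ 1 ∧ α '' S = S := by
  obtain ⟨e, a, ⟨x, b⟩, c⟩ := aut sat hW lev sep (fun x => {p : Bool × ℕ | (x, p) ∈ S}) (by simp)
  refine ⟨⟨e.prodCongr (.refl _), fun {u v} => ?_⟩, fun h => b
    (congrArg (fun α : G ≃g G => (α (x, false, 0)).1) h), ?_⟩
  · obtain ⟨y, f, m⟩ := u
    obtain ⟨z, g, k⟩ := v
    simp [G, R, a]
  refine ((e.prodCongr (.refl _)).eq_preimage_iff_image_eq _ _).1 (Set.ext fun v => ?_)
  exact (Set.ext_iff.1 (c v.1) v.2).symm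

theorem result : ∃ (V : Type) (G : SimpleGraph V) (w : V) (m : Cardinal), ℵ₀ < m ∧ G.Connected ∧
    TreeLike G w ∧ IsLeast {k | ∃ α : G ≃g G, α ≠ 1 ∧ #{v | α v ≠ v} = k} m ∧
    (∀ v, #(G.neighborSet v) ≤ 2 ^ m) ∧ ∀ S : Set V, ∃ α : G ≃g G, α ≠ 1 ∧ α '' S = S := by
  obtain ⟨o, -⟩ := sat ∅ ∅ (by simp) (by simp) (by simp)
  obtain ⟨α, a, -⟩ := nd ∅
  have k := csInf_mem (s := {k | ∃ α : G ≃g G, α ≠ 1 ∧ #{v | α v ≠ v} = k}) ⟨_, α, a, rfl⟩
  have ⟨β, b, c⟩ := k
  have d := (mv β b).trans_eq c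
  have e := aleph0_lt_continuum.trans ((Order.lt_succ _).trans_le d)
  refine ⟨V, G, (o, false, 0), _, e, con, tl o, ⟨k, fun _ => csInf_le'⟩, fun v => ?_, nd⟩
  have f := e.le.trans (cantor _).le
  refine (mk_subtype_le _).trans ((mk_prod _ _).trans_le (mul_le_of_le f ?_ ?_))
  · rw [lift_id]
    refine (mk_subtype_le _).trans (le_trans ?_ (power_le_power_left two_ne_zero d))
    exact (mk_arrow W Bool).trans_le (by simp)
  · exact le_trans (by simp) f

end Pool.Agent.Results.MP_53e992_co.No
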